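import Pool.Agent.N139.MS.Stm

/-!
# Project MS (helper139), PRJ (helper680): the projection onto the vectors which are not almost
invariant
-/

set_option autoImplicit false

namespace Pool.Agent.N680.MS

open Filter Topology Matrix
open Pool.Agent.W661.RC (HasT Mt hs IsPr)
open Pool.Agent.N139.MS

noncomputable section

section generic

variable {A : Type} [NormedRing A] [StarRing A] [CStarRing A]

lemma g_pr {q : A} (hs' : star q = q) (hq : q * q = q) :
    star (1 - q) = 1 - q ∧ (1 - q) * (1 - q) = 1 - q := by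
  refine ⟨by rw [star_sub, star_one, hs'], ?_⟩
  calc (1 - q) * (1 - q) = 1 - q - q + q * q := by noncomm_ring
    _ = 1 - q := by rw [hq]; abel

lemma g_comm (u : unitary A) {q : A} (hs' : star q = q) {ε : ℝ}
    (h : ‖((u : A) - 1) * q‖ ≤ ε / 2) : ‖(u : A) * (1 - q) - (1 - q) * u‖ ≤ ε := by
  have e1 : (u : A) * (1 - q) - (1 - q) * u = q * (u - 1) - (u - 1) * q := by noncomm_ring
  rw [e1]
  have h2 : ‖q * ((u : A) - 1)‖ ≤ ε / 2 := by
    rw [← norm_star, star_mul, hs', star_sub, star_one]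
    have hst : star (u : A) * u = 1 := (Unitary.mem_iff.1 u.2).1
    have e2 : (star (u : A) - 1) * q = ((star u : unitary A) : A) * (-(((u : A) - 1) * q)) := by
      rw [Unitary.coe_star]
      calc (star (u : A) - 1) * q = star (u : A) * q - 1 * q := by noncomm_ring
        _ = star (u : A) * q - (star (u : A) * u) * q := by rw [hst]
        _ = _ := by noncomm_ring
    rw [e2, CStarRing.norm_coe_unitary_mul, norm_neg]
    exact h
  refine (norm_sub_le _ _).trans ?_
  linarith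

lemma g_comm2 {τ q : A} (hs' : star q = q) {e ε : ℝ} (h1 : ‖(1 - q) * τ * q‖ ≤ e)
    (h2 : ‖(1 - q) * star τ * q‖ ≤ e) (he : e ≤ ε / 2) :
    ‖τ * (1 - q) - (1 - q) * τ‖ ≤ ε := by
  have e1' : τ * (1 - q) - (1 - q) * τ =
      q * τ * (1 - q) - (1 - q) * τ * q := by noncomm_ring
  rw [e1']
  have b2 : ‖q * τ * (1 - q)‖ ≤ e := by
    rw [← norm_star, star_mul, star_mul, hs', star_sub, star_one, hs', ← mul_assoc]
    exact h2
  refine (norm_sub_le _ _).trans ?_
  linarith

end generic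

/-- the Hilbert space -/
abbrev HH (d : ℕ) : Type := EuclideanSpace ℂ (Fin d)

/-- matrices as operators -/
def Ph (d : ℕ) : Mt d ≃⋆ₐ[ℂ] (HH d →L[ℂ] HH d) := Matrix.toEuclideanCLM (n := Fin d) (𝕜 := ℂ)

lemma on_eq {d : ℕ} (M : Mt d) : on M = ‖Ph d M‖ := rfl

lemma on_nonneg {d : ℕ} (M : Mt d) : 0 ≤ on M := norm_nonneg _

/-- unitary matrices as unitary operators -/
def um (d : ℕ) : Matrix.unitaryGroup (Fin d) ℂ →* unitary (HH d →L[ℂ] HH d) where
  toFun u := ⟨Ph d u.1, by
    rw [Unitary.mem_iff]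
    constructor
    · rw [← map_star, ← map_mul, (Unitary.mem_iff.1 u.2).1, map_one]
    · rw [← map_star, ← map_mul, (Unitary.mem_iff.1 u.2).2, map_one]⟩
  map_one' := Subtype.ext (map_one (Ph d))
  map_mul' u v := Subtype.ext (map_mul (Ph d) u.1 v.1)

lemma um_coe {d : ℕ} (u : Matrix.unitaryGroup (Fin d) ℂ) :
    (um d u : HH d →L[ℂ] HH d) = Ph d u.1 := rfl

/-- the representation of the free group -/
def rr {k d : ℕ} (U : Fin k → Matrix.unitaryGroup (Fin d) ℂ) :
    FreeGroup (Fin k) →* unitary (HH d →L[ℂ] HH d) := (um d).comp (FreeGroup.lift U)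

lemma rr_coe {k d : ℕ} (U : Fin k → Matrix.unitaryGroup (Fin d) ℂ) (w : FreeGroup (Fin k)) :
    (rr U w : HH d →L[ℂ] HH d) = Ph d (FreeGroup.lift U w).1 := rfl

lemma rr_of {k d : ℕ} (U : Fin k → Matrix.unitaryGroup (Fin d) ℂ) (s : Fin k) :
    (rr U (FreeGroup.of s) : HH d →L[ℂ] HH d) = Ph d (U s).1 := by
  rw [rr_coe, FreeGroup.lift_apply_of]

/-- the Hilbert-Schmidt norm through the columns -/
lemma hs_cols {d : ℕ} (M : Mt d) :
    hs M = ∑ j, ‖Ph d M (EuclideanSpace.single j (1 : ℂ))‖ ^ 2 := by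
  unfold hs
  rw [Finset.sum_comm]
  refine Finset.sum_congr rfl fun j _ => ?_
  rw [EuclideanSpace.norm_sq_eq]
  refine Finset.sum_congr rfl fun i _ => ?_
  have h : (Ph d M (EuclideanSpace.single j (1 : ℂ))).ofLp i = M i j := by
    unfold Ph
    rw [Matrix.ofLp_toEuclideanCLM]
    simp
  rw [← h]

lemma tz {l : Filter ℕ} {f : ℕ → ℝ} (h0 : ∀ n, 0 ≤ f n) (h : ∀ ε, 0 < ε → ∀ᶠ n in l, f n ≤ ε) :
    Tendsto f l (𝓝 0) := by
  rw [Metric.tendsto_nhds]
  intro ε hε
  filter_upwards [h (ε / 2) (by positivity)] with n hn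
  rw [Real.dist_eq, sub_zero, abs_of_nonneg (h0 n)]
  linarith

/-- generators and the energy -/
lemma gen_le {k d : ℕ} (ρ : FreeGroup (Fin k) →* unitary (HH d →L[ℂ] HH d)) (s : Fin k)
    (v : HH d) : ‖(ρ (FreeGroup.of s) : HH d →L[ℂ] HH d) v - v‖ ≤ √(E ρ v) := by
  refine Real.le_sqrt_of_sq_le ?_
  exact Finset.single_le_sum
    (f := fun s => ‖(ρ (FreeGroup.of s) : HH d →L[ℂ] HH d) v - v‖ ^ 2)
    (fun _ _ => by positivity) (Finset.mem_univ s)

lemma unit_cancel {d : ℕ} (u : unitary (HH d →L[ℂ] HH d)) (v : HH d) :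
    (u : HH d →L[ℂ] HH d) (((u⁻¹ : unitary (HH d →L[ℂ] HH d)) : HH d →L[ℂ] HH d) v) = v := by
  have h : ((u * u⁻¹ : unitary (HH d →L[ℂ] HH d)) : HH d →L[ℂ] HH d) = 1 := by
    rw [mul_inv_cancel]; rfl
  exact congrArg (fun A : HH d →L[ℂ] HH d => A v) h

lemma unit_cancel' {d : ℕ} (u : unitary (HH d →L[ℂ] HH d)) (v : HH d) :
    ((u⁻¹ : unitary (HH d →L[ℂ] HH d)) : HH d →L[ℂ] HH d) ((u : HH d →L[ℂ] HH d) v) = v := by
  have h : ((u⁻¹ * u : unitary (HH d →L[ℂ] HH d)) : HH d →L[ℂ] HH d) = 1 := by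
    rw [inv_mul_cancel]; rfl
  exact congrArg (fun A : HH d →L[ℂ] HH d => A v) h

/-- words move almost invariant vectors little -/
lemma word_bd {k : ℕ} (w : FreeGroup (Fin k)) : ∃ N : ℝ, 0 ≤ N ∧ ∀ (d : ℕ)
    (ρ : FreeGroup (Fin k) →* unitary (HH d →L[ℂ] HH d)) (v : HH d),
    ‖(ρ w : HH d →L[ℂ] HH d) v - v‖ ≤ N * √(E ρ v) := by
  induction w using FreeGroup.induction_on with
  | C1 =>
    refine ⟨0, le_rfl, fun d ρ v => ?_⟩
    rw [map_one]
    simp
  | of x =>
    refine ⟨1, zero_le_one, fun d ρ v => ?_⟩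
    rw [one_mul]
    exact gen_le ρ x v
  | inv_of x ih =>
    obtain ⟨N, hN, h⟩ := ih
    refine ⟨N, hN, fun d ρ v => ?_⟩
    rw [map_inv]
    have h1 := h d ρ v
    have h2 := Unitary.norm_map (ρ (FreeGroup.of x))
      ((((ρ (FreeGroup.of x))⁻¹ : unitary (HH d →L[ℂ] HH d)) : HH d →L[ℂ] HH d) v - v)
    rw [map_sub, unit_cancel, norm_sub_rev] at h2
    rw [← h2]
    exact h1
  | mul x y hx hy =>
    obtain ⟨N1, hN1, h1⟩ := hx
    obtain ⟨N2, hN2, h2⟩ := hy
    refine ⟨N1 + N2, add_nonneg hN1 hN2, fun d ρ v => ?_⟩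
    rw [ρ.map_mul x y]
    have a1 := h1 d ρ v
    have a2 := h2 d ρ v
    have a3 := Unitary.norm_map (ρ x) ((ρ y : HH d →L[ℂ] HH d) v - v)
    have e : ((ρ x * ρ y : unitary (HH d →L[ℂ] HH d)) : HH d →L[ℂ] HH d) v - v =
        (ρ x : HH d →L[ℂ] HH d) ((ρ y : HH d →L[ℂ] HH d) v - v) +
          ((ρ x : HH d →L[ℂ] HH d) v - v) := by
      rw [map_sub]
      show (ρ x : HH d →L[ℂ] HH d) ((ρ y : HH d →L[ℂ] HH d) v) - v = _
      abel
    rw [e]
    refine (norm_add_le _ _).trans ?_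
    rw [a3]
    linarith

lemma opn {d : ℕ} (A : HH d →L[ℂ] HH d) (e : ℝ) (he : 0 ≤ e) (V : Submodule ℂ (HH d))
    (h : ∀ v ∈ V, ‖A v‖ ≤ e * ‖v‖) : ‖A * V.starProjection‖ ≤ e := by
  refine ContinuousLinearMap.opNorm_le_bound _ he fun v => ?_
  show ‖A (V.starProjection v)‖ ≤ e * ‖v‖
  exact (h _ (Submodule.starProjection_apply_mem V v)).trans
    (mul_le_mul_of_nonneg_left (Submodule.norm_starProjection_apply_le V v) he)

theorem t_PRJ (hG : S_GAP) (hR : S_ROT) : S_PRJ := by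
  intro K _ k γ hT hγ
  obtain ⟨c, hc, δ, R, hδ, hRγ, hgap⟩ := hG K k γ hT hγ
  refine ⟨c, hc, ?_⟩
  intro ws l d U T hAH hTW
  choose V hV1 hV2 using fun n => hgap (HH (d n)) (rr (U n))
  set q : ∀ n, HH (d n) →L[ℂ] HH (d n) := fun n => (V n).starProjection with hq
  have hqs : ∀ n, star (q n) = q n := fun n =>
    (isSelfAdjoint_starProjection (V n)).star_eq
  have hqq : ∀ n, q n * q n = q n := fun n => (Submodule.isIdempotentElem_starProjection (V n)).eq
  set P : ∀ n, Mt (d n) := fun n => 1 - (Ph (d n)).symm (q n) with hP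
  have hPP : ∀ n, Ph (d n) (P n) = 1 - q n := fun n => by
    rw [hP]
    simp only [map_sub, map_one]
    rw [StarAlgEquiv.apply_symm_apply]
  have hinj : ∀ n, Function.Injective (Ph (d n)) := fun n => (Ph (d n)).injective
  have h1q : ∀ n, Ph (d n) (1 - P n) = q n := fun n => by
    rw [map_sub, map_one, hPP]
    abel
  -- the energy on V
  have hE : ∀ η : ℝ, 0 < η → ∀ᶠ n in l, ∀ v ∈ V n, E (rr (U n)) v ≤ η * ‖v‖ ^ 2 := by
    intro η hη
    have h1 : ∀ᶠ n in l, ∀ w ∈ R η, on ((FreeGroup.lift (U n) w).val - 1) ≤ δ η := by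
      rw [Filter.eventually_all_finset]
      intro w hw
      have := (hAH w (hRγ η w hw)).eventually (ge_mem_nhds (hδ η hη))
      exact this
    filter_upwards [h1] with n hn
    refine hV2 n η hη ?_
    intro w hw v
    have h2 : (rr (U n) w : HH (d n) →L[ℂ] HH (d n)) v - v =
        Ph (d n) ((FreeGroup.lift (U n) w).val - 1) v := by
      rw [map_sub, map_one, rr_coe]
      rfl
    rw [h2]
    refine (ContinuousLinearMap.le_opNorm _ _).trans ?_
    exact mul_le_mul_of_nonneg_right (hn w hw) (norm_nonneg _)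
  -- generators on V
  have hgen : ∀ ε : ℝ, 0 < ε → ∀ᶠ n in l, ∀ s,
      ‖((rr (U n) (FreeGroup.of s) : HH (d n) →L[ℂ] HH (d n)) - 1) * q n‖ ≤ ε := by
    intro ε hε
    filter_upwards [hE (ε ^ 2) (by positivity)] with n hn s
    refine opn _ ε hε.le (V n) fun v hv => ?_
    have h1 := gen_le (rr (U n)) s v
    have h2 : √(E (rr (U n)) v) ≤ ε * ‖v‖ := by
      refine Real.sqrt_le_iff.2 ⟨by positivity, ?_⟩
      rw [mul_pow]
      exact hn v hv
    exact h1.trans h2
  refine ⟨P, ?_, ?_, ?_, ?_, ?_⟩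
  · -- projections
    intro n
    obtain ⟨g1, g2⟩ := g_pr (hqs n) (hqq n)
    constructor
    · apply hinj n
      have h1 : Ph (d n) ((P n)ᴴ) = star (Ph (d n) (P n)) := map_star (Ph (d n)) (P n)
      rw [h1, hPP]
      exact g1
    · apply hinj n
      rw [map_mul, hPP]
      exact g2
  · -- (b)
    intro n
    simp only [hs_cols]
    rw [Finset.mul_sum, Finset.sum_comm]
    refine Finset.sum_le_sum fun j _ => ?_
    set v : HH (d n) := Ph (d n) (P n) (EuclideanSpace.single j (1 : ℂ)) with hv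
    have h0 : q n v = 0 := by
      rw [hv, hPP]
      have h2 : q n * (1 - q n) = 0 := by rw [mul_sub, mul_one, hqq, sub_self]
      exact congrArg (fun A : HH (d n) →L[ℂ] HH (d n) => A (EuclideanSpace.single j (1 : ℂ))) h2
    have h1 := hV1 n v
    have h0' : (V n).starProjection v = 0 := h0
    rw [h0', sub_zero] at h1
    refine h1.trans (le_of_eq ?_)
    unfold E
    refine Finset.sum_congr rfl fun s _ => ?_
    congr 2
    rw [map_mul, map_sub, map_one, rr_of]
    rfl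
  · -- (c)
    intro s
    refine tz (fun n => on_nonneg _) fun ε hε => ?_
    filter_upwards [hgen (ε / 2) (by positivity)] with n hn
    rw [on_eq, map_sub, map_mul, map_mul, hPP, ← rr_of]
    exact g_comm (rr (U n) (FreeGroup.of s)) (hqs n) (hn s)
  · -- (d)
    choose N hN0 hN using fun s => word_bd (ws s)
    set N' : ℝ := ∑ s, N s with hN'
    have hNs : ∀ s, N s ≤ N' := fun s =>
      Finset.single_le_sum (f := N) (fun i _ => hN0 i) (Finset.mem_univ s)
    have hN'0 : 0 ≤ N' := Finset.sum_nonneg fun i _ => hN0 i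
    -- the operator maps V nearly to itself
    have hTV : ∀ e1 : ℝ, 0 < e1 → ∀ᶠ n in l, ∀ v ∈ V n,
        ‖(um (d n) (T n) : HH (d n) →L[ℂ] HH (d n)) v -
          (V n).starProjection ((um (d n) (T n) : HH (d n) →L[ℂ] HH (d n)) v)‖ ≤ e1 * ‖v‖ := by
      intro e1 he1
      set t : ℝ := e1 * √(c / (k + 1)) with ht
      have ht0 : 0 < t := by positivity
      have htk : (k : ℝ) * t ^ 2 ≤ c * e1 ^ 2 := by
        rw [ht, mul_pow, Real.sq_sqrt (by positivity)]
        have h3 : (k : ℝ) * (e1 ^ 2 * (c / (k + 1))) = (c * e1 ^ 2) * (k / (k + 1)) := by ring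
        rw [h3]
        have h4 : (k : ℝ) / (k + 1) ≤ 1 := by
          rw [div_le_one (by positivity)]
          linarith
        exact mul_le_of_le_one_right (by positivity) h4
      set η : ℝ := (t / (2 * (N' + 1))) ^ 2 with hη
      have hη0 : 0 < η := by positivity
      have hw : ∀ᶠ n in l, ∀ s, on (((T n)⁻¹ * U n s * T n).val -
          (FreeGroup.lift (U n) (ws s)).val) ≤ t / 2 := by
        rw [Filter.eventually_all]
        intro s
        exact (hTW s).eventually (ge_mem_nhds (by positivity : (0 : ℝ) < t / 2))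
      filter_upwards [hE η hη0, hw] with n hn1 hn2 v hv
      set τ := um (d n) (T n) with hτ
      have hEv := hn1 v hv
      have hsq : √(E (rr (U n)) v) ≤ t / (2 * (N' + 1)) * ‖v‖ := by
        refine Real.sqrt_le_iff.2 ⟨by positivity, ?_⟩
        rw [mul_pow]
        exact hEv
      have hs1 : ∀ s, ‖(rr (U n) (FreeGroup.of s) : HH (d n) →L[ℂ] HH (d n))
          ((τ : HH (d n) →L[ℂ] HH (d n)) v) - (τ : HH (d n) →L[ℂ] HH (d n)) v‖ ≤ t * ‖v‖ := by
        intro s
        have b1 := Unitary.norm_map (τ⁻¹) ((rr (U n) (FreeGroup.of s) : HH (d n) →L[ℂ] HH (d n))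
          ((τ : HH (d n) →L[ℂ] HH (d n)) v) - (τ : HH (d n) →L[ℂ] HH (d n)) v)
        rw [← b1, map_sub, unit_cancel']
        have e2 : ((τ⁻¹ : unitary (HH (d n) →L[ℂ] HH (d n))) : HH (d n) →L[ℂ] HH (d n))
            ((rr (U n) (FreeGroup.of s) : HH (d n) →L[ℂ] HH (d n))
              ((τ : HH (d n) →L[ℂ] HH (d n)) v)) - v =
            Ph (d n) (((T n)⁻¹ * U n s * T n).val - (FreeGroup.lift (U n) (ws s)).val) v +
            ((rr (U n) (ws s) : HH (d n) →L[ℂ] HH (d n)) v - v) := by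
          have e3 : Ph (d n) (((T n)⁻¹ * U n s * T n).val) v =
              ((τ⁻¹ : unitary (HH (d n) →L[ℂ] HH (d n))) : HH (d n) →L[ℂ] HH (d n))
            ((rr (U n) (FreeGroup.of s) : HH (d n) →L[ℂ] HH (d n))
              ((τ : HH (d n) →L[ℂ] HH (d n)) v)) := by
            rw [← um_coe, (um (d n)).map_mul, (um (d n)).map_mul, (um (d n)).map_inv, rr_of]
            rfl
          rw [← e3, map_sub, rr_coe]
          show _ = (Ph (d n) (((T n)⁻¹ * U n s * T n).val) v -
            Ph (d n) ((FreeGroup.lift (U n) (ws s)).val) v) +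
              (Ph (d n) ((FreeGroup.lift (U n) (ws s)).val) v - v)
          abel
        rw [e2]
        refine (norm_add_le _ _).trans ?_
        have b2 : ‖Ph (d n) (((T n)⁻¹ * U n s * T n).val - (FreeGroup.lift (U n) (ws s)).val) v‖ ≤
            t / 2 * ‖v‖ := (ContinuousLinearMap.le_opNorm _ _).trans
          (mul_le_mul_of_nonneg_right (hn2 s) (norm_nonneg _))
        have b3 : ‖(rr (U n) (ws s) : HH (d n) →L[ℂ] HH (d n)) v - v‖ ≤ t / 2 * ‖v‖ := by
          refine (hN s (d n) (rr (U n)) v).trans ?_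
          have b4 : N s * √(E (rr (U n)) v) ≤ (N' + 1) * (t / (2 * (N' + 1)) * ‖v‖) :=
            mul_le_mul (by linarith [hNs s]) hsq (Real.sqrt_nonneg _) (by linarith)
          refine b4.trans (le_of_eq ?_)
          have : N' + 1 ≠ 0 := by positivity
          field_simp
        linarith
      have h5 := hV1 n ((τ : HH (d n) →L[ℂ] HH (d n)) v)
      have h6 : E (rr (U n)) ((τ : HH (d n) →L[ℂ] HH (d n)) v) ≤ c * (e1 * ‖v‖) ^ 2 := by
        unfold E
        have h7 : ∀ s ∈ (Finset.univ : Finset (Fin k)),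
            ‖(rr (U n) (FreeGroup.of s) : HH (d n) →L[ℂ] HH (d n))
          ((τ : HH (d n) →L[ℂ] HH (d n)) v) - (τ : HH (d n) →L[ℂ] HH (d n)) v‖ ^ 2 ≤
            (t * ‖v‖) ^ 2 := fun s _ => pow_le_pow_left₀ (norm_nonneg _) (hs1 s) 2
        refine (Finset.sum_le_sum h7).trans ?_
        rw [Finset.sum_const, Finset.card_univ, Fintype.card_fin, nsmul_eq_mul, mul_pow, mul_pow]
        have h8 : 0 ≤ ‖v‖ ^ 2 := by positivity
        nlinarith
      have h9 : ‖(τ : HH (d n) →L[ℂ] HH (d n)) v -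
          (V n).starProjection ((τ : HH (d n) →L[ℂ] HH (d n)) v)‖ ^ 2 ≤ (e1 * ‖v‖) ^ 2 :=
        le_of_mul_le_mul_left (h5.trans h6) hc
      exact (sq_le_sq₀ (norm_nonneg _) (by positivity)).1 h9
    refine tz (fun n => on_nonneg _) fun ε hε => ?_
    set e1 : ℝ := min (ε / 2) (1 / 2) with he1
    have he0 : 0 < e1 := by
      rw [he1]
      exact lt_min (by positivity) (by norm_num)
    have he2 : e1 ≤ ε / 2 := min_le_left _ _
    have he3 : e1 < 1 := lt_of_le_of_lt (min_le_right _ _) (by norm_num)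
    filter_upwards [hTV e1 he0] with n hn
    have hrot := hR (HH (d n)) (V n) (um (d n) (T n)) e1 he3 hn
    rw [on_eq, map_sub, map_mul, map_mul, hPP, ← um_coe]
    refine g_comm2 (e := e1) (hqs n) ?_ ?_ he2
    · exact opn ((1 - q n) * (um (d n) (T n) : HH (d n) →L[ℂ] HH (d n))) e1 he0.le (V n)
        fun v hv => hn v hv
    · exact opn ((1 - q n) * star (um (d n) (T n) : HH (d n) →L[ℂ] HH (d n))) e1 he0.le (V n)
        fun v hv => hrot v hv
  · -- (e)
    intro s
    refine tz (fun n => on_nonneg _) fun ε hε => ?_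
    filter_upwards [hgen ε hε] with n hn
    rw [on_eq, map_mul, h1q, map_sub, map_one, ← rr_of]
    exact hn s

end

end Pool.Agent.N680.MS
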